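import Pool.Agent.Helper87.TC.Stmts2

/-!
The local ring of the scheme `F = 0` at a point with independent differentials is a domain.
-/

set_option autoImplicit false

namespace Pool.Agent.Helper87.TC

open MvPolynomial

namespace LDOM

/-- The maximal ideal of a point. -/
noncomputable def mI {n : ℕ} (z : Fin n → ℂ) : Ideal (MvPolynomial (Fin n) ℂ) := RingHom.ker (eval z)

theorem mem_mI {n : ℕ} (z : Fin n → ℂ) (f : MvPolynomial (Fin n) ℂ) :
    f ∈ mI z ↔ eval z f = 0 := Iff.rfl

theorem krull {n : ℕ} (z : Fin n → ℂ) (J : Ideal (MvPolynomial (Fin n) ℂ))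
    (f : MvPolynomial (Fin n) ℂ) (hf : ∀ k : ℕ, f ∈ J ⊔ mI z ^ k) :
    ∃ h' : MvPolynomial (Fin n) ℂ, eval z h' ≠ 0 ∧ h' * f ∈ J := by
  have h1 : (Ideal.Quotient.mk J f) ∈ (⨅ i : ℕ, mI z ^ i •
      (⊤ : Submodule (MvPolynomial (Fin n) ℂ) (MvPolynomial (Fin n) ℂ ⧸ J))) := by
    rw [Submodule.mem_iInf]
    intro k
    obtain ⟨j, hj, u, hu, huv⟩ := Submodule.mem_sup.1 (hf k)
    have h2 : Ideal.Quotient.mk J f = u • (1 : MvPolynomial (Fin n) ℂ ⧸ J) := by
      rw [← huv, map_add, Ideal.Quotient.eq_zero_iff_mem.2 hj, zero_add]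
      exact congrArg (Ideal.Quotient.mk J) (mul_one u).symm
    rw [h2]
    exact Submodule.smul_mem_smul hu trivial
  rw [Ideal.mem_iInf_smul_pow_eq_bot_iff] at h1
  obtain ⟨⟨r, hr⟩, hr2⟩ := h1
  have hr0 : eval z r = 0 := hr
  refine ⟨1 - r, ?_, ?_⟩
  · rw [map_sub, map_one, hr0, sub_zero]
    exact one_ne_zero
  · have h3 : (r : MvPolynomial (Fin n) ℂ) • (Ideal.Quotient.mk J f) =
        Ideal.Quotient.mk J (r * f) := rfl
    rw [← Ideal.Quotient.eq_zero_iff_mem, sub_mul, one_mul, map_sub, ← h3]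
    rw [sub_eq_zero]
    exact hr2.symm

section Taylor

variable {n : ℕ} {B : Type} [CommRing B] [Algebra ℂ B]

theorem taylor0 (z : Fin n → ℂ) (N : Ideal B) (x : Fin n → B)
    (hx : ∀ i, x i - algebraMap ℂ B (z i) ∈ N) (p : MvPolynomial (Fin n) ℂ) :
    aeval x p - algebraMap ℂ B (eval z p) ∈ N := by
  induction p using MvPolynomial.induction_on with
  | C a => simp
  | add p q hp hq =>
    have h1 := N.add_mem hp hq
    have h2 : aeval x (p + q) - algebraMap ℂ B (eval z (p + q)) =
        (aeval x p - algebraMap ℂ B (eval z p)) + (aeval x q - algebraMap ℂ B (eval z q)) := by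
      simp only [map_add]
      ring
    rw [h2]
    exact h1
  | mul_X p i hp =>
    have h2 : aeval x (p * X i) - algebraMap ℂ B (eval z (p * X i)) =
        (aeval x p - algebraMap ℂ B (eval z p)) * x i +
          algebraMap ℂ B (eval z p) * (x i - algebraMap ℂ B (z i)) := by
      simp only [map_mul, aeval_X, eval_X]
      ring
    rw [h2]
    exact N.add_mem (N.mul_mem_right _ hp) (N.mul_mem_left _ (hx i))

theorem taylor (z : Fin n → ℂ) (N D : Ideal B) (hDN : D ≤ N) (x δ : Fin n → B)
    (hx : ∀ i, x i - algebraMap ℂ B (z i) ∈ N) (hδ : ∀ i, δ i ∈ D)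
    (p : MvPolynomial (Fin n) ℂ) :
    aeval (fun i => x i + δ i) p - aeval x p -
      ∑ i, algebraMap ℂ B (eval z (pderiv i p)) * δ i ∈ N * D := by
  induction p using MvPolynomial.induction_on with
  | C a => simp
  | add p q hp hq =>
    have h2 : aeval (fun i => x i + δ i) (p + q) - aeval x (p + q) -
        ∑ i, algebraMap ℂ B (eval z (pderiv i (p + q))) * δ i =
        (aeval (fun i => x i + δ i) p - aeval x p -
          ∑ i, algebraMap ℂ B (eval z (pderiv i p)) * δ i) +
        (aeval (fun i => x i + δ i) q - aeval x q -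
          ∑ i, algebraMap ℂ B (eval z (pderiv i q)) * δ i) := by
      simp only [map_add, add_mul, Finset.sum_add_distrib]
      ring
    rw [h2]
    exact Ideal.add_mem _ hp hq
  | mul_X p i hp =>
    have h3 : ∑ j, algebraMap ℂ B (eval z (pderiv j (p * X i))) * δ j =
        (∑ j, algebraMap ℂ B (eval z (pderiv j p)) * δ j) * algebraMap ℂ B (z i) +
          algebraMap ℂ B (eval z p) * δ i := by
      have h4 : ∀ j, algebraMap ℂ B (eval z (pderiv j (p * X i))) * δ j =
          (algebraMap ℂ B (eval z (pderiv j p)) * δ j) * algebraMap ℂ B (z i) +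
            if j = i then algebraMap ℂ B (eval z p) * δ i else 0 := by
        intro j
        rw [Derivation.leibniz]
        by_cases hji : j = i
        · subst hji
          simp only [pderiv_X_self, smul_eq_mul, mul_one, map_add, map_mul, eval_X, if_true]
          ring
        · rw [pderiv_X_of_ne (fun h => hji h.symm)]
          simp only [smul_eq_mul, mul_zero, zero_add, map_mul, eval_X, if_neg hji, add_zero]
          ring
      rw [Finset.sum_congr rfl (fun j _ => h4 j), Finset.sum_add_distrib, Finset.sum_mul,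
        Finset.sum_ite_eq' Finset.univ i]
      simp
    have h2 : aeval (fun i => x i + δ i) (p * X i) - aeval x (p * X i) -
        ∑ j, algebraMap ℂ B (eval z (pderiv j (p * X i))) * δ j =
        (aeval (fun i => x i + δ i) p - aeval x p -
          ∑ j, algebraMap ℂ B (eval z (pderiv j p)) * δ j) * (x i + δ i) +
        (x i + δ i - algebraMap ℂ B (z i)) *
          (∑ j, algebraMap ℂ B (eval z (pderiv j p)) * δ j) +
        (aeval x p - algebraMap ℂ B (eval z p)) * δ i := by
      rw [h3]
      simp only [map_mul, aeval_X]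
      ring
    rw [h2]
    have h5 : (∑ j, algebraMap ℂ B (eval z (pderiv j p)) * δ j) ∈ D :=
      Ideal.sum_mem _ (fun j _ => D.mul_mem_left _ (hδ j))
    have h6 : x i + δ i - algebraMap ℂ B (z i) ∈ N := by
      have := N.add_mem (hx i) (hDN (hδ i))
      have e : x i + δ i - algebraMap ℂ B (z i) = x i - algebraMap ℂ B (z i) + δ i := by ring
      rw [e]
      exact this
    exact Ideal.add_mem _ (Ideal.add_mem _ (Ideal.mul_mem_right _ _ hp)
      (Ideal.mul_mem_mul h6 h5)) (Ideal.mul_mem_mul (taylor0 z N x hx p) (hδ i))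

end Taylor

/-- A right inverse of a matrix with independent rows. -/
theorem rinv {n c : ℕ} (G : Fin c → Fin n → ℂ) (hG : LinearIndependent ℂ G) :
    ∃ S : Fin n → Fin c → ℂ, ∀ a b, ∑ i, G a i * S i b = if a = b then 1 else 0 := by
  classical
  have h1 := linearIndependent_iff_injective_fintypeLinearCombination.1 hG
  obtain ⟨g, hg⟩ := (Fintype.linearCombination ℂ G).exists_leftInverse_of_injective
    (LinearMap.ker_eq_bot.2 h1)
  refine ⟨fun i b => g (Pi.single i 1) b, fun a b => ?_⟩
  have h2 : g (G a) = Pi.single a (1 : ℂ) := by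
    have h3 := LinearMap.congr_fun hg (Pi.single a (1 : ℂ))
    rw [LinearMap.comp_apply, LinearMap.id_apply] at h3
    rw [← h3]
    congr 1
    rw [Fintype.linearCombination_apply_single, one_smul]
  have h4 : G a = ∑ i, G a i • (Pi.single i (1 : ℂ) : Fin n → ℂ) := by
    funext j
    rw [Finset.sum_apply]
    simp [Pi.single_apply]
  have h5 : g (G a) b = ∑ i, G a i * g (Pi.single i 1) b := by
    conv_lhs => rw [h4]
    rw [map_sum, Finset.sum_apply]
    refine Finset.sum_congr rfl fun i _ => ?_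
    rw [map_smul, Pi.smul_apply, smul_eq_mul]
  rw [← h5, h2, Pi.single_apply]
  by_cases h : a = b
  · subst h; simp
  · rw [if_neg h, if_neg (fun h' => h h'.symm)]

section Main

variable {n c : ℕ} (z : Fin n → ℂ) (G : Fin c → Fin n → ℂ) (S : Fin n → Fin c → ℂ)

/-- The projection to the kernel. -/
noncomputable def pr (i j : Fin n) : ℂ := (if i = j then 1 else 0) - ∑ a, S i a * G a j

/-- The projected coordinates. -/
noncomputable def Tco (i : Fin n) : MvPolynomial (Fin n) ℂ :=
  ∑ j, C (pr G S i j) * (X j - C (z j))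

/-- The forms in the projected coordinates. -/
noncomputable def sig : MvPolynomial (Fin n) ℂ →ₐ[ℂ] MvPolynomial (Fin n) ℂ :=
  aeval (Tco z G S)

theorem pr_S (hS : ∀ a b, ∑ i, G a i * S i b = if a = b then 1 else 0) (i : Fin n)
    (b : Fin c) : ∑ j, pr G S i j * S j b = 0 := by
  have h1 : ∀ j, pr G S i j * S j b =
      (if i = j then S j b else 0) - ∑ a, S i a * (G a j * S j b) := by
    intro j
    rw [pr, sub_mul, Finset.sum_mul]
    congr 1
    · by_cases h : i = j
      · simp [h]
      · simp [h]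
    · exact Finset.sum_congr rfl fun a _ => by ring
  rw [Finset.sum_congr rfl fun j _ => h1 j, Finset.sum_sub_distrib, Finset.sum_comm]
  have h2 : ∀ a, ∑ j, S i a * (G a j * S j b) = if a = b then S i a else 0 := by
    intro a
    rw [← Finset.mul_sum, hS]
    by_cases h : a = b
    · simp [h]
    · simp [h]
  rw [Finset.sum_congr rfl fun a _ => h2 a]
  simp

theorem G_pr (hS : ∀ a b, ∑ i, G a i * S i b = if a = b then 1 else 0) (a : Fin c)
    (j : Fin n) : ∑ i, G a i * pr G S i j = 0 := by
  have h1 : ∀ i, G a i * pr G S i j =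
      (if i = j then G a i else 0) - ∑ b, (G a i * S i b) * G b j := by
    intro i
    rw [pr, mul_sub, Finset.mul_sum]
    congr 1
    · by_cases h : i = j
      · simp [h]
      · simp [h]
    · exact Finset.sum_congr rfl fun a _ => by ring
  rw [Finset.sum_congr rfl fun j _ => h1 j, Finset.sum_sub_distrib, Finset.sum_comm]
  have h2 : ∀ b, ∑ i, (G a i * S i b) * G b j = if a = b then G b j else 0 := by
    intro b
    rw [← Finset.sum_mul, hS]
    by_cases h : a = b
    · simp [h]
    · simp [h]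
  rw [Finset.sum_congr rfl fun a _ => h2 a]
  simp

/-- The projection of a projected vector. -/
theorem pr_pr (hS : ∀ a b, ∑ i, G a i * S i b = if a = b then 1 else 0) (v : Fin n → ℂ)
    (i : Fin n) : ∑ j, pr G S i j * (∑ k, pr G S j k * v k) = ∑ k, pr G S i k * v k := by
  set w : Fin n → ℂ := fun j => ∑ k, pr G S j k * v k with hw
  have h0 : ∀ a, ∑ j, G a j * w j = 0 := by
    intro a
    have h1 : ∀ j, G a j * w j = ∑ k, (G a j * pr G S j k) * v k := by
      intro j
      rw [hw]
      simp only [Finset.mul_sum]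
      exact Finset.sum_congr rfl fun k _ => by ring
    rw [Finset.sum_congr rfl fun j _ => h1 j, Finset.sum_comm]
    refine Finset.sum_eq_zero fun k _ => ?_
    rw [← Finset.sum_mul, G_pr G S hS, zero_mul]
  have h2 : ∀ j, pr G S i j * w j = (if i = j then w j else 0) - ∑ a, S i a * (G a j * w j) := by
    intro j
    rw [pr, sub_mul, Finset.sum_mul]
    congr 1
    · by_cases h : i = j
      · simp [h]
      · simp [h]
    · exact Finset.sum_congr rfl fun a _ => by ring
  show ∑ j, pr G S i j * w j = w i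
  rw [Finset.sum_congr rfl fun j _ => h2 j, Finset.sum_sub_distrib, Finset.sum_comm]
  have h3 : ∀ a, ∑ j, S i a * (G a j * w j) = 0 := by
    intro a
    rw [← Finset.mul_sum, h0, mul_zero]
  rw [Finset.sum_congr rfl fun a _ => h3 a]
  simp

theorem X_mem (i : Fin n) : (X i - C (z i) : MvPolynomial (Fin n) ℂ) ∈ mI z := by
  rw [mem_mI]
  simp

theorem TT_mem (i : Fin n) : Tco z G S i ∈ mI z :=
  Ideal.sum_mem _ fun j _ => Ideal.mul_mem_left _ _ (X_mem z j)

theorem lin (b : MvPolynomial (Fin n) ℂ) (hb : b ∈ mI z) :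
    b - ∑ i, C (eval z (pderiv i b)) * (X i - C (z i)) ∈ mI z ^ 2 := by
  have h1 := taylor (B := MvPolynomial (Fin n) ℂ) z (mI z) (mI z) le_rfl
    (fun i => C (z i)) (fun i => X i - C (z i))
    (fun i => by
      have : (C (z i) : MvPolynomial (Fin n) ℂ) - algebraMap ℂ (MvPolynomial (Fin n) ℂ) (z i) = 0 :=
        sub_self _
      rw [this]
      exact Ideal.zero_mem _)
    (fun i => X_mem z i) b
  have h2 : aeval (fun i => (C (z i) : MvPolynomial (Fin n) ℂ) + (X i - C (z i))) b = b := by
    have : (fun i => (C (z i) : MvPolynomial (Fin n) ℂ) + (X i - C (z i))) = X := by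
      funext i; ring
    rw [this]
    exact aeval_X_left_apply b
  have h3 : aeval (fun i => (C (z i) : MvPolynomial (Fin n) ℂ)) b = 0 := by
    have h4 : aeval (fun i => (C (z i) : MvPolynomial (Fin n) ℂ)) b = C (eval z b) := by
      have h5 := taylor0 (B := MvPolynomial (Fin n) ℂ) z ⊥ (fun i => C (z i))
        (fun i => Ideal.mem_bot.2 (sub_self _)) b
      exact sub_eq_zero.1 (Ideal.mem_bot.1 h5)
    rw [h4, (mem_mI z b).1 hb, map_zero]
  rw [h2, h3, sub_zero] at h1
  rw [pow_two]
  exact h1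

/-- The ideal of the equations. -/
noncomputable def JI (F : Fin c → MvPolynomial (Fin n) ℂ) : Ideal (MvPolynomial (Fin n) ℂ) :=
  Ideal.span (Set.range F)

/-- The gradients. -/
noncomputable def gr (F : Fin c → MvPolynomial (Fin n) ℂ) : Fin c → Fin n → ℂ :=
  fun a j => eval z (pderiv j (F a))

theorem XT (F : Fin c → MvPolynomial (Fin n) ℂ) (hF : ∀ a, eval z (F a) = 0) (i : Fin n) :
    X i - C (z i) - Tco z (gr z F) S i ∈ JI F ⊔ mI z ^ 2 := by
  have h1 : X i - C (z i) - Tco z (gr z F) S i =
      ∑ a, C (S i a) * ∑ j, C (gr z F a j) * (X j - C (z j)) := by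
    rw [Tco]
    have h2 : ∀ j, (C (pr (gr z F) S i j) * (X j - C (z j)) : MvPolynomial (Fin n) ℂ) =
        (if i = j then X j - C (z j) else 0) -
          ∑ a, C (S i a) * (C (gr z F a j) * (X j - C (z j))) := by
      intro j
      rw [pr, C_sub, sub_mul, map_sum, Finset.sum_mul]
      congr 1
      · by_cases h : i = j
        · simp [h]
        · simp [h]
      · exact Finset.sum_congr rfl fun a _ => by rw [C_mul]; ring
    rw [Finset.sum_congr rfl fun j _ => h2 j, Finset.sum_sub_distrib, Finset.sum_comm]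
    simp only [Finset.sum_ite_eq, Finset.mem_univ, if_true, Finset.mul_sum]
    ring
  rw [h1]
  refine Ideal.sum_mem _ fun a _ => Ideal.mul_mem_left _ _ ?_
  have h3 := lin z (F a) ((mem_mI z _).2 (hF a))
  have h4 : F a ∈ JI F := Ideal.subset_span ⟨a, rfl⟩
  have h5 : ∑ j, C (gr z F a j) * (X j - C (z j)) =
      F a + -(F a - ∑ i, C (eval z (pderiv i (F a))) * (X i - C (z i))) := by
    show ∑ j, C (eval z (pderiv j (F a))) * (X j - C (z j)) = _
    ring
  rw [h5]
  exact Submodule.mem_sup.2 ⟨F a, h4, _, neg_mem h3, rfl⟩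

theorem sigX (i : Fin n) : sig z G S (X i) = Tco z G S i := by
  rw [sig, aeval_X]

/-- The first order representation. -/
theorem one_step (F : Fin c → MvPolynomial (Fin n) ℂ) (hF : ∀ a, eval z (F a) = 0)
    (b : MvPolynomial (Fin n) ℂ) (hb : b ∈ mI z) :
    b - sig z (gr z F) S (∑ i, C (eval z (pderiv i b)) * X i) ∈ JI F ⊔ mI z ^ 2 := by
  have h1 : b - sig z (gr z F) S (∑ i, C (eval z (pderiv i b)) * X i) =
      (b - ∑ i, C (eval z (pderiv i b)) * (X i - C (z i))) +
      ∑ i, C (eval z (pderiv i b)) * (X i - C (z i) - Tco z (gr z F) S i) := by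
    have h2 : sig z (gr z F) S (∑ i, C (eval z (pderiv i b)) * X i) =
        ∑ i, C (eval z (pderiv i b)) * Tco z (gr z F) S i := by
      rw [map_sum]
      refine Finset.sum_congr rfl fun i _ => ?_
      rw [map_mul, sigX]
      congr 1
      exact AlgHom.commutes _ _
    rw [h2]
    simp only [mul_sub, Finset.sum_sub_distrib]
    ring
  rw [h1]
  refine Ideal.add_mem _ ?_ ?_
  · exact Ideal.mem_sup_right (lin z b hb)
  · exact Ideal.sum_mem _ fun i _ => Ideal.mul_mem_left _ _ (XT z S F hF i)

/-- Homogeneous polynomials, through the substitution of a line. -/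
def Hd (d : ℕ) (P : MvPolynomial (Fin n) ℂ) : Prop :=
  ∀ v : Fin n → ℂ, aeval (fun j => (Polynomial.X : Polynomial ℂ) * Polynomial.C (v j)) P =
    Polynomial.X ^ d * Polynomial.C (eval v P)

theorem rep (F : Fin c → MvPolynomial (Fin n) ℂ) (hF : ∀ a, eval z (F a) = 0) (d : ℕ) :
    ∀ u ∈ mI z ^ d, ∃ P : MvPolynomial (Fin n) ℂ, Hd d P ∧ sig z (gr z F) S P ∈ mI z ^ d ∧
      u - sig z (gr z F) S P ∈ JI F ⊔ mI z ^ (d + 1) := by
  induction d with
  | zero =>
    intro u _
    refine ⟨C (eval z u), fun v => ?_, by simp, ?_⟩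
    · rw [pow_zero, one_mul, eval_C]
      exact AlgHom.commutes _ _
    · have h1 : sig z (gr z F) S (C (eval z u)) = C (eval z u) := AlgHom.commutes _ _
      rw [h1, zero_add, pow_one]
      refine Ideal.mem_sup_right ?_
      rw [mem_mI]
      simp
  | succ d ih =>
    intro u hu
    rw [pow_succ] at hu
    refine Submodule.mul_induction_on hu ?_ ?_
    · intro a ha b hb
      obtain ⟨P, hP1, hP2, hP3⟩ := ih a ha
      set Q : MvPolynomial (Fin n) ℂ := ∑ i, C (eval z (pderiv i b)) * X i with hQ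
      have hQ1 : Hd 1 Q := by
        intro v
        rw [hQ, map_sum, map_sum, pow_one, map_sum, Finset.mul_sum]
        refine Finset.sum_congr rfl fun i _ => ?_
        rw [map_mul, aeval_X, map_mul, eval_X, eval_C, map_mul]
        have : (aeval (fun j => (Polynomial.X : Polynomial ℂ) * Polynomial.C (v j)))
          (C (eval z (pderiv i b)) : MvPolynomial (Fin n) ℂ) =
            Polynomial.C (eval z (pderiv i b)) := AlgHom.commutes _ _
        rw [this]
        ring
      have hQ2 : sig z (gr z F) S Q ∈ mI z := by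
        rw [hQ, map_sum]
        refine Ideal.sum_mem _ fun i _ => ?_
        rw [map_mul, sigX]
        exact Ideal.mul_mem_left _ _ (TT_mem z _ S i)
      have hQ3 := one_step z S F hF b hb
      rw [← hQ] at hQ3
      refine ⟨P * Q, fun v => ?_, ?_, ?_⟩
      · rw [map_mul, hP1 v, hQ1 v, map_mul, map_mul]
        ring
      · rw [map_mul, pow_succ]
        exact Ideal.mul_mem_mul hP2 hQ2
      · have h1 : a * b - sig z (gr z F) S (P * Q) =
            a * (b - sig z (gr z F) S Q) + (a - sig z (gr z F) S P) * sig z (gr z F) S Q := by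
          rw [map_mul]
          ring
        rw [h1]
        refine Ideal.add_mem _ ?_ ?_
        · obtain ⟨j, hj, e, he, hje⟩ := Submodule.mem_sup.1 hQ3
          rw [← hje, mul_add]
          refine Ideal.add_mem _ (Ideal.mem_sup_left (Ideal.mul_mem_left _ _ hj))
            (Ideal.mem_sup_right ?_)
          have : mI z ^ (d + 1 + 1) = mI z ^ d * mI z ^ 2 := by rw [← pow_add]
          rw [this]
          exact Ideal.mul_mem_mul ha he
        · obtain ⟨j, hj, e, he, hje⟩ := Submodule.mem_sup.1 hP3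
          rw [← hje, add_mul]
          refine Ideal.add_mem _ (Ideal.mem_sup_left (Ideal.mul_mem_right _ _ hj))
            (Ideal.mem_sup_right ?_)
          rw [pow_succ]
          exact Ideal.mul_mem_mul he hQ2
    · rintro x y ⟨P, hP1, hP2, hP3⟩ ⟨Q, hQ1, hQ2, hQ3⟩
      refine ⟨P + Q, fun v => ?_, ?_, ?_⟩
      · rw [map_add, hP1 v, hQ1 v, map_add, map_add]
        ring
      · rw [map_add]
        exact Ideal.add_mem _ hP2 hQ2
      · have h1 : x + y - sig z (gr z F) S (P + Q) =
            (x - sig z (gr z F) S P) + (y - sig z (gr z F) S Q) := by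
          rw [map_add]
          ring
        rw [h1]
        exact Ideal.add_mem _ hP3 hQ3

/-- The leading form. -/
theorem lead (F : Fin c → MvPolynomial (Fin n) ℂ) (hF : ∀ a, eval z (F a) = 0)
    (f : MvPolynomial (Fin n) ℂ) (hf : ∃ k : ℕ, f ∉ JI F ⊔ mI z ^ k) :
    ∃ (d : ℕ) (P : MvPolynomial (Fin n) ℂ), Hd d P ∧ sig z (gr z F) S P ≠ 0 ∧
      f - sig z (gr z F) S P ∈ JI F ⊔ mI z ^ (d + 1) := by
  classical
  obtain ⟨k, hk⟩ : ∃ k, k = Nat.find hf := ⟨_, rfl⟩
  have hk1 : f ∉ JI F ⊔ mI z ^ k := hk ▸ Nat.find_spec hf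
  have hk2 : ∀ l < k, f ∈ JI F ⊔ mI z ^ l := fun l hl => by
    have := Nat.find_min hf (hk ▸ hl)
    exact not_not.1 this
  cases k with
  | zero =>
    exact absurd (by rw [pow_zero, Ideal.one_eq_top, sup_top_eq]; trivial) hk1
  | succ d =>
    obtain ⟨j, hj, u, hu, hju⟩ := Submodule.mem_sup.1 (hk2 d (Nat.lt_succ_self d))
    obtain ⟨P, hP1, hP2, hP3⟩ := rep z S F hF d u hu
    have h1 : f - sig z (gr z F) S P ∈ JI F ⊔ mI z ^ (d + 1) := by
      have : f - sig z (gr z F) S P = j + (u - sig z (gr z F) S P) := by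
        rw [← hju]; ring
      rw [this]
      exact Ideal.add_mem _ (Ideal.mem_sup_left hj) hP3
    refine ⟨d, P, hP1, fun h0 => hk1 ?_, h1⟩
    rw [h0, sub_zero] at h1
    exact h1

/-- The approximate curve. -/
theorem curve (F : Fin c → MvPolynomial (Fin n) ℂ) (hF : ∀ a, eval z (F a) = 0)
    (hS : ∀ a b, ∑ i, gr z F a i * S i b = if a = b then 1 else 0) (w : Fin n → ℂ)
    (hw : ∀ i, ∑ j, pr (gr z F) S i j * w j = w i) (k : ℕ) :
    ∃ γ : Fin n → Polynomial ℂ,
      (∀ i, γ i - Polynomial.C (z i) ∈ Ideal.span {(Polynomial.X : Polynomial ℂ)}) ∧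
      (∀ a, aeval γ (F a) ∈ Ideal.span {(Polynomial.X : Polynomial ℂ)} ^ (k + 1)) ∧
      ∀ i, ∑ j, Polynomial.C (pr (gr z F) S i j) * (γ j - Polynomial.C (z j)) =
        Polynomial.X * Polynomial.C (w i) := by
  induction k with
  | zero =>
    have h1 : ∀ i, (Polynomial.C (z i) + Polynomial.X * Polynomial.C (w i)) - Polynomial.C (z i) ∈
        Ideal.span {(Polynomial.X : Polynomial ℂ)} := by
      intro i
      rw [add_sub_cancel_left]
      exact Ideal.mul_mem_right _ _ (Ideal.mem_span_singleton_self _)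
    refine ⟨fun i => Polynomial.C (z i) + Polynomial.X * Polynomial.C (w i), h1, ?_, ?_⟩
    · intro a
      have h2 := taylor0 z (Ideal.span {(Polynomial.X : Polynomial ℂ)})
        (fun i => Polynomial.C (z i) + Polynomial.X * Polynomial.C (w i)) h1 (F a)
      rw [hF a, map_zero, sub_zero] at h2
      rw [zero_add, pow_one]
      exact h2
    · intro i
      simp only [add_sub_cancel_left]
      rw [← hw i, map_sum, Finset.mul_sum]
      refine Finset.sum_congr rfl fun j _ => ?_
      rw [map_mul]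
      ring
  | succ k ih =>
    obtain ⟨γ, h1, h2, h3⟩ := ih
    set I : Ideal (Polynomial ℂ) := Ideal.span {(Polynomial.X : Polynomial ℂ)} with hI
    have hle : I ^ (k + 1) ≤ I := Ideal.pow_le_self (Nat.succ_ne_zero k)
    set δ : Fin n → Polynomial ℂ := fun i => -∑ a, Polynomial.C (S i a) * aeval γ (F a) with hδ
    have hδ1 : ∀ i, δ i ∈ I ^ (k + 1) := fun i =>
      neg_mem (Ideal.sum_mem _ fun a _ => Ideal.mul_mem_left _ _ (h2 a))
    refine ⟨fun i => γ i + δ i, fun i => ?_, fun a => ?_, fun i => ?_⟩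
    · have : γ i + δ i - Polynomial.C (z i) = (γ i - Polynomial.C (z i)) + δ i := by ring
      rw [this]
      exact Ideal.add_mem _ (h1 i) (hle (hδ1 i))
    · have h4 := taylor z I (I ^ (k + 1)) hle γ δ h1 hδ1 (F a)
      rw [← pow_succ'] at h4
      have h5 : ∑ i, algebraMap ℂ (Polynomial ℂ) (eval z (pderiv i (F a))) * δ i =
          -aeval γ (F a) := by
        have h6 : ∀ i, algebraMap ℂ (Polynomial ℂ) (eval z (pderiv i (F a))) * δ i =
            -∑ b, Polynomial.C (gr z F a i * S i b) * aeval γ (F b) := by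
          intro i
          rw [hδ]
          simp only [mul_neg, Finset.mul_sum]
          refine congrArg Neg.neg (Finset.sum_congr rfl fun b _ => ?_)
          rw [← mul_assoc, Polynomial.C_mul]
          rfl
        rw [Finset.sum_congr rfl fun i _ => h6 i, Finset.sum_neg_distrib, Finset.sum_comm]
        refine congrArg Neg.neg ?_
        have h7 : ∀ b, ∑ i, Polynomial.C (gr z F a i * S i b) * aeval γ (F b) =
            if a = b then aeval γ (F b) else 0 := by
          intro b
          rw [← Finset.sum_mul, ← map_sum, hS]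
          by_cases h : a = b
          · simp [h]
          · simp [h]
        rw [Finset.sum_congr rfl fun b _ => h7 b]
        simp
      rw [h5] at h4
      have h8 : aeval (fun i => γ i + δ i) (F a) =
          aeval (fun i => γ i + δ i) (F a) - aeval γ (F a) - -aeval γ (F a) := by ring
      rw [h8]
      exact h4
    · have h9 : ∀ j, Polynomial.C (pr (gr z F) S i j) * (γ j + δ j - Polynomial.C (z j)) =
          Polynomial.C (pr (gr z F) S i j) * (γ j - Polynomial.C (z j)) -
            ∑ b, Polynomial.C (pr (gr z F) S i j * S j b) * aeval γ (F b) := by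
        intro j
        have : γ j + δ j - Polynomial.C (z j) = (γ j - Polynomial.C (z j)) -
            ∑ a, Polynomial.C (S j a) * aeval γ (F a) := by
          rw [hδ]
          ring
        rw [this, mul_sub, Finset.mul_sum]
        congr 1
        refine Finset.sum_congr rfl fun b _ => ?_
        rw [Polynomial.C_mul]
        ring
      rw [Finset.sum_congr rfl fun j _ => h9 j, Finset.sum_sub_distrib, h3 i, Finset.sum_comm]
      have h10 : ∀ b, ∑ j, Polynomial.C (pr (gr z F) S i j * S j b) * aeval γ (F b) = 0 := by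
        intro b
        rw [← Finset.sum_mul, ← map_sum, pr_S _ S hS, map_zero, zero_mul]
      rw [Finset.sum_congr rfl fun b _ => h10 b]
      simp

/-- Values on the curve. -/
theorem val (F : Fin c → MvPolynomial (Fin n) ℂ) (w : Fin n → ℂ) (k : ℕ)
    (γ : Fin n → Polynomial ℂ)
    (h1 : ∀ i, γ i - Polynomial.C (z i) ∈ Ideal.span {(Polynomial.X : Polynomial ℂ)})
    (h2 : ∀ a, aeval γ (F a) ∈ Ideal.span {(Polynomial.X : Polynomial ℂ)} ^ k)
    (h3 : ∀ i, ∑ j, Polynomial.C (pr (gr z F) S i j) * (γ j - Polynomial.C (z j)) =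
        Polynomial.X * Polynomial.C (w i)) (f P : MvPolynomial (Fin n) ℂ) (d : ℕ)
    (hd : d + 1 ≤ k) (hP : Hd d P) (hf : f - sig z (gr z F) S P ∈ JI F ⊔ mI z ^ (d + 1)) :
    ∃ r : Polynomial ℂ, aeval γ f =
      Polynomial.X ^ d * (Polynomial.C (eval w P) + Polynomial.X * r) := by
  set I : Ideal (Polynomial ℂ) := Ideal.span {(Polynomial.X : Polynomial ℂ)} with hI
  have hJ : JI F ≤ (I ^ (d + 1)).comap (aeval γ).toRingHom := by
    rw [JI, Ideal.span_le]
    rintro _ ⟨a, rfl⟩
    exact Ideal.pow_le_pow_right hd (h2 a)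
  have hm : mI z ≤ I.comap (aeval γ).toRingHom := by
    intro u hu
    have h4 := taylor0 z I γ h1 u
    rw [(mem_mI z u).1 hu, map_zero, sub_zero] at h4
    exact h4
  have hm2 : mI z ^ (d + 1) ≤ (I ^ (d + 1)).comap (aeval γ).toRingHom :=
    (Ideal.pow_right_mono hm _).trans (Ideal.le_comap_pow _ _)
  have h5 : aeval γ (f - sig z (gr z F) S P) ∈ I ^ (d + 1) := (sup_le hJ hm2) hf
  have h6 : aeval γ (sig z (gr z F) S P) = Polynomial.X ^ d * Polynomial.C (eval w P) := by
    rw [← hP w]
    have h7 : (aeval γ : MvPolynomial (Fin n) ℂ →ₐ[ℂ] Polynomial ℂ).comp (sig z (gr z F) S) =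
        aeval (fun j => (Polynomial.X : Polynomial ℂ) * Polynomial.C (w j)) := by
      refine MvPolynomial.algHom_ext fun i => ?_
      rw [AlgHom.comp_apply, sigX, aeval_X, ← h3 i, Tco, map_sum]
      refine Finset.sum_congr rfl fun j _ => ?_
      rw [map_mul, map_sub, aeval_X]
      congr 1
      · exact AlgHom.commutes _ _
      · congr 1
        exact AlgHom.commutes _ _
    rw [← h7]
    rfl
  rw [hI, Ideal.span_singleton_pow, Ideal.mem_span_singleton] at h5
  obtain ⟨r, hr⟩ := h5
  refine ⟨r, ?_⟩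
  rw [map_sub, h6] at hr
  have h8 : aeval γ f = Polynomial.X ^ d * Polynomial.C (eval w P) +
      Polynomial.X ^ (d + 1) * r := by
    rw [← hr]; ring
  rw [h8, pow_succ]
  ring

end Main

theorem xdvd (p : ℂ) (r : Polynomial ℂ)
    (h : Polynomial.X ∣ Polynomial.C p + Polynomial.X * r) : p = 0 := by
  rw [Polynomial.X_dvd_iff] at h
  simpa using h

end LDOM

open LDOM in
theorem st_LDOM : ST_LDOM := by
  intro n c F z hF hG f g h hh hfg
  obtain ⟨S, hS⟩ := rinv _ hG
  by_contra hcon
  rw [not_or] at hcon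
  have hf : ∃ k : ℕ, f ∉ JI F ⊔ mI z ^ k := by
    by_contra hc
    push Not at hc
    exact hcon.1 (krull z (JI F) f hc)
  have hg : ∃ k : ℕ, g ∉ JI F ⊔ mI z ^ k := by
    by_contra hc
    push Not at hc
    exact hcon.2 (krull z (JI F) g hc)
  obtain ⟨d, P, hP1, hP2, hP3⟩ := lead z S F hF f hf
  obtain ⟨e, Q, hQ1, hQ2, hQ3⟩ := lead z S F hF g hg
  obtain ⟨v, hv⟩ : ∃ v, eval v (sig z (gr z F) S P * sig z (gr z F) S Q) ≠ 0 := by
    by_contra hc
    push Not at hc
    exact mul_ne_zero hP2 hQ2 (MvPolynomial.funext fun x => by rw [hc x, map_zero])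
  rw [map_mul] at hv
  set w : Fin n → ℂ := fun i => ∑ j, pr (gr z F) S i j * (v j - z j) with hw
  have hev : ∀ R : MvPolynomial (Fin n) ℂ, eval v (sig z (gr z F) S R) = eval w R := by
    intro R
    have h1 : ((aeval v : MvPolynomial (Fin n) ℂ →ₐ[ℂ] ℂ).comp (sig z (gr z F) S)) =
        aeval w := by
      refine MvPolynomial.algHom_ext fun i => ?_
      rw [AlgHom.comp_apply, sigX, aeval_X, Tco, map_sum, hw]
      refine Finset.sum_congr rfl fun j _ => ?_
      simp
    have h2 := AlgHom.congr_fun h1 R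
    rw [AlgHom.comp_apply] at h2
    exact h2
  rw [hev, hev] at hv
  have hw2 : ∀ i, ∑ j, pr (gr z F) S i j * w j = w i := fun i =>
    pr_pr (gr z F) S hS (fun j => v j - z j) i
  obtain ⟨γ, h1, h2, h3⟩ := curve z S F hF hS w hw2 (d + e)
  obtain ⟨r1, hr1⟩ := val z S F w (d + e + 1) γ h1 h2 h3 f P d (by omega) hP1 hP3
  obtain ⟨r2, hr2⟩ := val z S F w (d + e + 1) γ h1 h2 h3 g Q e (by omega) hQ1 hQ3
  have h4 := taylor0 z _ γ h1 h
  rw [Ideal.mem_span_singleton] at h4
  obtain ⟨r3, hr3⟩ := h4
  have hr3' : aeval γ h = Polynomial.C (eval z h) + Polynomial.X * r3 := by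
    rw [← hr3]
    show _ = algebraMap ℂ (Polynomial ℂ) (eval z h) + _
    ring
  have h5 : aeval γ (h * (f * g)) ∈ Ideal.span {(Polynomial.X : Polynomial ℂ)} ^ (d + e + 1) := by
    have hJ : JI F ≤ (Ideal.span {(Polynomial.X : Polynomial ℂ)} ^ (d + e + 1)).comap
        (aeval γ).toRingHom := by
      rw [JI, Ideal.span_le]
      rintro _ ⟨a, rfl⟩
      exact h2 a
    exact hJ hfg
  rw [Ideal.span_singleton_pow, Ideal.mem_span_singleton, map_mul, map_mul, hr1, hr2, hr3'] at h5
  have h6 : (Polynomial.C (eval z h) + Polynomial.X * r3) *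
      (Polynomial.X ^ d * (Polynomial.C (eval w P) + Polynomial.X * r1) *
        (Polynomial.X ^ e * (Polynomial.C (eval w Q) + Polynomial.X * r2))) =
      Polynomial.X ^ (d + e) * ((Polynomial.C (eval z h) + Polynomial.X * r3) *
        ((Polynomial.C (eval w P) + Polynomial.X * r1) *
          (Polynomial.C (eval w Q) + Polynomial.X * r2))) := by ring
  rw [h6, pow_succ] at h5
  have h7 := (mul_dvd_mul_iff_left (pow_ne_zero (d + e) Polynomial.X_ne_zero)).1 h5
  have hpr : Prime (Polynomial.X : Polynomial ℂ) := Polynomial.prime_X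
  rcases hpr.dvd_or_dvd h7 with h8 | h8
  · exact hh (xdvd _ _ h8)
  · rcases hpr.dvd_or_dvd h8 with h9 | h9
    · exact hv (by rw [xdvd _ _ h9, zero_mul])
    · exact hv (by rw [xdvd _ _ h9, mul_zero])

end Pool.Agent.Helper87.TC
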